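import Pool.Agent.H99.Rains

namespace Pool.Agent.Results.MP_4046ef_mp.Counter

open Pool.Agent.H99.RainsDefs Pool.Agent.H99.Rains

theorem result : ∃ D : Data, D.AnomalyFree ∧ D.NonChiral ∧ D.NoSinglets ∧
    (∃ ε : ℝ, 0 < ε ∧ ∀ x : ℝ, 0 < |x| → |x| < ε → 0 < D.rains x) ∧ ∃ x : ℝ, D.rains x < 0 :=
  ⟨D, D_anom, D_nonchiral, D_nos,
    ⟨1 / 3, by norm_num, fun x h0 h => by rw [D_small x h]; linarith⟩,
    ⟨1 / 2, by rw [D_half]; norm_num⟩⟩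

end Pool.Agent.Results.MP_4046ef_mp.Counter
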